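import Pool.Agent.Lib.MP_e6fef2_lc.V.Iface
import Pool.Agent.Lib.MP_c5d73d_lc.F.H36.Reals

/-!
# V_PROP: from properness in `V^B` to typed properness
-/

set_option autoImplicit false

universe u

open Cardinal

open scoped symmDiff

namespace Pool.Agent.Lib.MP_e6fef2_lc.H99

open Pool.Agent.Lib.MP_100a6c_lc
open Pool.Agent.Lib.MP_c5d73d_lc.F (isOm isPow isPreo comp isDense isFilt)
open BName
open H36 (om)

variable {B : Type u} [CompleteBooleanAlgebra B]

/-! ### Extensionality -/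

theorem ext_isClub_right (C H : BName B) : Ext (fun μ : BName B => (VB B).isClub C H μ) :=
  ((Ext.iInf fun c => (Ext.const _).himp ((Ext.const _).inf (ext_leCard_right c))).inf
    (Ext.iInf fun x => ((Ext.const _).inf (ext_leCard_right x)).himp (Ext.const _))).inf
    (Ext.iInf fun D => ((((Ext.const _).inf (Ext.const _)).inf (ext_leCard_right D)).inf
      (Ext.const _)).himp (Ext.const _))

theorem ext_isClub_mid (C μ : BName B) : Ext (fun H : BName B => (VB B).isClub C H μ) :=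
  ((Ext.iInf fun c => (Ext.const _).himp ((ext_sub_right c).inf (Ext.const _))).inf
    (Ext.iInf fun x => ((ext_sub_right x).inf (Ext.const _)).himp (Ext.const _))).inf (Ext.const _)

theorem ext_comp_left (P r q : BName B) : Ext (fun p : BName B => comp (VB B) P r p q) :=
  Ext.iSup fun s => ((Ext.const _).inf (ext_rel_trd r s)).inf (Ext.const _)

theorem ext_comp_right (P r p : BName B) : Ext (fun q : BName B => comp (VB B) P r p q) :=
  Ext.iSup fun s => ((Ext.const _).inf (Ext.const _)).inf (ext_rel_trd r s)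

theorem ext_isGen (P r M : BName B) : Ext (fun q : BName B => isGen (VB B) P r M q) :=
  Ext.iInf fun _ => (Ext.const _).himp (Ext.iInf fun t =>
    ((Ext.const _).inf (ext_rel_trd r t)).himp (Ext.const _))

/-! ### The data given by properness -/

theorem exists_data {Γ : B} {P r : BName B} (h : Γ ≤ isProper (VB B) P r) :
    ∃ θ H C Q : BName B, Γ ≤ (VB B).isH H θ ∧ Γ ≤ isPow (VB B) Q P ∧ Γ ≤ bmem Q H ∧
      Γ ≤ (VB B).isClub C H (check om) ∧
      Γ ≤ ⨅ M, bmem M C ⇨ ⨅ p, bmem p P ⊓ bmem p M ⇨ ⨆ q, bmem q P ⊓ (VB B).rel r q p ⊓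
        isGen (VB B) P r M q := by
  unfold isProper at h
  obtain ⟨w, h⟩ := exists_wit (Ext.iSup fun θ => Ext.iSup fun H => Ext.iSup fun C =>
    ((((Pool.Agent.Lib.MP_c5d73d_lc.F.H36.ext_isOm.inf (Ext.const _)).inf (Ext.const _)).inf
      (Ext.const _)).inf (ext_isClub_right C H)).inf (Ext.const _)) h
  obtain ⟨θ, h⟩ := exists_wit (Ext.iSup fun H => Ext.iSup fun C =>
    (((((Ext.const _).inf ext_isReg).inf (ext_isH_right H)).inf
      (Ext.const _)).inf (Ext.const _)).inf (Ext.const _)) h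
  obtain ⟨H, h⟩ := exists_wit (Ext.iSup fun C =>
    (((((Ext.const _).inf (Ext.const _)).inf (ext_isH_left θ)).inf
      (Ext.iSup fun Q => (Ext.const _).inf (ext_mem_right Q))).inf (ext_isClub_mid C w)).inf
        (Ext.const _)) h
  obtain ⟨C, h⟩ := exists_wit ((((((Ext.const _).inf (Ext.const _)).inf (Ext.const _)).inf
      (Ext.const _)).inf (ext_isClub_left H w)).inf
        (Ext.iInf fun M => (ext_mem_right M).himp (Ext.const _))) h
  have h1 : Γ ≤ isOm (VB B) w := h.trans (inf_le_left.trans (inf_le_left.trans (inf_le_left.trans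
    (inf_le_left.trans inf_le_left))))
  have h3 : Γ ≤ (VB B).isH H θ := h.trans (inf_le_left.trans (inf_le_left.trans (inf_le_left.trans
    inf_le_right)))
  have h4 : Γ ≤ ⨆ Q, isPow (VB B) Q P ⊓ (VB B).mem Q H :=
    h.trans (inf_le_left.trans (inf_le_left.trans inf_le_right))
  have h5 : Γ ≤ (VB B).isClub C H w := h.trans (inf_le_left.trans inf_le_right)
  obtain ⟨Q, hQ⟩ := exists_wit ((Pool.Agent.Lib.MP_c5d73d_lc.F.H36.ext_isPow_left P).inf
    (ext_mem_left H)) h4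
  refine ⟨θ, H, C, Q, h3, hQ.trans inf_le_left, hQ.trans inf_le_right, ?_, h.trans inf_le_right⟩
  rw [Pool.Agent.Lib.MP_c5d73d_lc.F.H36.isOm_eq] at h1
  exact (ext_isClub_right C H).of_le h1 h5

/-- Subsets and elements of `P` are in `H(θ)`. -/
theorem mem_H {Γ : B} {P θ H Q : BName B} (h1 : Γ ≤ (VB B).isH H θ) (h2 : Γ ≤ isPow (VB B) Q P)
    (h3 : Γ ≤ bmem Q H) :
    (∀ D, Γ ≤ (VB B).sub D P → Γ ≤ bmem D H) ∧ (∀ x, Γ ≤ bmem x P → Γ ≤ bmem x H) := by
  have hH : ∀ x, Γ ⊓ bmem x H = Γ ⊓ ⨆ t, (VB B).isTrans t ⊓ (VB B).sub x t ⊓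
      ⨆ ρ, (VB B).mem ρ θ ⊓ (VB B).leCard t ρ := fun x =>
    le_bihimp_iff'.1 (h1.trans (iInf_le _ x))
  have hP : ∀ z, Γ ⊓ bmem z Q = Γ ⊓ (VB B).sub z P := fun z =>
    le_bihimp_iff'.1 (h2.trans (iInf_le _ z))
  have h4 : Γ ≤ ⨆ t, (VB B).isTrans t ⊓ (VB B).sub Q t ⊓ ⨆ ρ, (VB B).mem ρ θ ⊓ (VB B).leCard t ρ :=
    ((le_inf le_rfl h3).trans (hH Q).le).trans inf_le_right
  obtain ⟨t, ht⟩ := exists_wit ((ext_isTrans.inf (ext_sub_right Q)).inf
    (Ext.iSup fun ρ => (Ext.const _).inf (ext_leCard_left ρ))) h4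
  have t1 : Γ ≤ (VB B).isTrans t := ht.trans (inf_le_left.trans inf_le_left)
  have t2 : Γ ≤ (VB B).sub Q t := ht.trans (inf_le_left.trans inf_le_right)
  have t3 : Γ ≤ ⨆ ρ, (VB B).mem ρ θ ⊓ (VB B).leCard t ρ := ht.trans inf_le_right
  have key : ∀ x, Γ ≤ bmem x t → Γ ≤ bmem x H := by
    intro x hx
    have h5 : Γ ≤ (VB B).sub x t := iInf_himp_apply t1 x le_rfl hx
    refine ((le_inf le_rfl ?_).trans (hH x).ge).trans inf_le_right
    exact le_iSup_of_le t (le_inf (le_inf t1 h5) t3)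
  have hQt : ∀ D, Γ ≤ (VB B).sub D P → Γ ≤ bmem D t := by
    intro D hD
    have h6 : Γ ≤ bmem D Q := ((le_inf le_rfl hD).trans (hP D).ge).trans inf_le_right
    exact sub_apply t2 D le_rfl h6
  refine ⟨fun D hD => key D (hQt D hD), fun x hx => key x ?_⟩
  have h7 : Γ ≤ bmem P t := hQt P (by
    rw [le_sub_iff]
    intro i
    exact inf_le_right.trans (vl_le_bmem P i))
  have h8 : Γ ≤ (VB B).sub P t := iInf_himp_apply t1 P le_rfl h7
  exact sub_apply h8 x le_rfl hx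

/-! ### The club -/

theorem leCard_om {Γ : B} {x : BName B} {Y : Type u} [Countable Y] {t : Y → BName B}
    (h : Enum Γ x t) : Γ ≤ (VB B).leCard x (check om) := by
  have := le_leCard_of_enum ℵ₀ (Cardinal.mk_le_aleph0 (α := Y)) h
  rwa [Cardinal.ord_aleph0] at this

theorem enum_om {Γ : B} {x : BName B} (h : Γ ≤ (VB B).leCard x (check om)) :
    ∃ t : ℕ → BName B, ∀ z, Γ ⊓ bmem z x ≤ ⨆ n, beq z (t n) := by
  have h' : Γ ≤ (VB B).leCard x (check (ℵ₀ : Cardinal.{u}).ord.toZFSet) := by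
    rwa [Cardinal.ord_aleph0]
  obtain ⟨t, ht⟩ := exists_enum_type (K := ULift.{u} ℕ) (by simp) h'
  refine ⟨fun n => t ⟨n⟩, fun z => (ht z).trans ?_⟩
  exact iSup_le fun n => le_iSup (fun n : ℕ => beq z (t ⟨n⟩)) n.down

section

variable {Γ : B} {C H : BName B}

theorem club_above (hC : Γ ≤ (VB B).isClub C H (check om)) (y : BName B)
    (h1 : Γ ≤ (VB B).sub y H) (h2 : Γ ≤ (VB B).leCard y (check om)) :
    ∃ c, Γ ≤ bmem c C ∧ Γ ≤ (VB B).sub y c := by
  have h3 : Γ ≤ ⨆ c, (VB B).mem c C ⊓ (VB B).sub y c :=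
    iInf_himp_apply (hC.trans (inf_le_left.trans inf_le_right)) y le_rfl (le_inf h1 h2)
  obtain ⟨c, hc⟩ := exists_wit ((ext_mem_left C).inf (ext_sub_right y)) h3
  exact ⟨c, hc.trans inf_le_left, hc.trans inf_le_right⟩

/-- The name of `c ∪ {x}`. -/
def ins (c x : BName B) : BName B :=
  mk (Option c.ix) (fun o => o.elim x c.nm) fun o => o.elim ⊤ c.vl

theorem mem_ins (c x z : BName B) : bmem z (ins c x) = beq z x ⊔ bmem z c := by
  rw [ins, mem_mk, iSup_option, bmem_def]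
  simp

theorem club_step (hC : Γ ≤ (VB B).isClub C H (check om)) (c x : BName B)
    (hc : Γ ≤ bmem c C) (hx : Γ ≤ bmem x H) :
    ∃ c', Γ ≤ bmem c' C ∧ Γ ≤ (VB B).sub c c' ∧ Γ ≤ bmem x c' := by
  have h0 : Γ ≤ (VB B).sub c H ⊓ (VB B).leCard c (check om) :=
    iInf_himp_apply (hC.trans (inf_le_left.trans inf_le_left)) c le_rfl hc
  obtain ⟨t, ht⟩ := enum_om (h0.trans inf_le_right)
  obtain ⟨c', h1, h2⟩ := club_above hC (ins c x) (by
    rw [le_sub_iff]
    rintro (_ | i)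
    · exact inf_le_left.trans hx
    · exact sub_apply (h0.trans inf_le_left) _ inf_le_left (inf_le_right.trans (vl_le_bmem c i)))
    (leCard_om (Y := Option (ULift.{u} ℕ)) (t := fun o => o.elim x fun n => t n.down) (by
      intro z
      rw [mem_ins, inf_sup_left]
      refine sup_le ?_ ?_
      · exact le_iSup_of_le none inf_le_right
      · refine (ht z).trans (iSup_le fun n => ?_)
        exact le_iSup_of_le (some ⟨n⟩) le_rfl))
  refine ⟨c', h1, ?_, ?_⟩
  · refine le_iInf fun z => ?_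
    rw [le_himp_iff]
    refine sub_apply h2 z inf_le_left ?_
    rw [mem_ins]
    exact inf_le_right.trans le_sup_right
  · refine sub_apply h2 x le_rfl ?_
    rw [mem_ins, beq_refl, top_sup_eq]
    exact le_top

/-- The union of an increasing sequence. -/
theorem club_union (hC : Γ ≤ (VB B).isClub C H (check om)) (c : ℕ → BName B)
    (hc : ∀ n, Γ ≤ bmem (c n) C) (hm : ∀ n, Γ ≤ (VB B).sub (c n) (c (n + 1))) :
    ∃ M, Γ ≤ bmem M C ∧ ∀ z, bmem z M = ⨆ n, bmem z (c n) := by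
  have hmono : ∀ n m, n ≤ m → Γ ≤ (VB B).sub (c n) (c m) := by
    intro n m hnm
    induction hnm with
    | refl =>
      rw [le_sub_iff]
      intro i
      exact inf_le_right.trans (vl_le_bmem _ i)
    | step _ ih =>
      refine le_iInf fun z => ?_
      rw [le_himp_iff]
      exact sub_apply (hm _) z inf_le_left (sub_apply ih z inf_le_left inf_le_right)
  have hU : ∀ z, bmem z (uni (ι := ULift.{u} ℕ) (fun n => c n.down) fun _ => ⊤) =
      ⨆ n, bmem z (c n) := by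
    intro z
    rw [mem_uni]
    refine le_antisymm (iSup_le fun n => ?_) (iSup_le fun n => ?_)
    · rw [top_inf_eq]
      exact le_iSup (fun n => bmem z (c n)) n.down
    · refine le_iSup_of_le ⟨n⟩ ?_
      rw [top_inf_eq]
  refine ⟨uni (ι := ULift.{u} ℕ) (fun n => c n.down) fun _ => ⊤, ?_, hU⟩
  have hD : ∀ z, bmem z (mk (ULift.{u} ℕ) (fun n => c n.down) fun _ => ⊤) = ⨆ n, beq z (c n) := by
    intro z
    rw [mem_mk]
    refine le_antisymm (iSup_le fun n => ?_) (iSup_le fun n => ?_)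
    · rw [top_inf_eq]
      exact le_iSup (fun n => beq z (c n)) n.down
    · refine le_iSup_of_le ⟨n⟩ ?_
      rw [top_inf_eq]
  have h3 := iInf_himp_apply (hC.trans inf_le_right)
    (mk (ULift.{u} ℕ) (fun n => c n.down) fun _ => ⊤) le_rfl (by
      refine le_inf (le_inf (le_inf ?_ ?_) ?_) ?_
      · rw [le_sub_iff]
        intro i
        exact inf_le_left.trans (hc _)
      · refine le_iSup_of_le (c 0) ?_
        rw [VB_mem, hD]
        refine le_iSup_of_le 0 ?_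
        rw [beq_refl]
        exact le_top
      · refine leCard_om (Y := ULift.{u} ℕ) (t := fun n => c n.down) ?_
        intro z
        rw [mem_mk]
        refine inf_le_right.trans (iSup_mono fun n => ?_)
        rw [top_inf_eq]
      · refine le_iInf fun a => le_iInf fun a' => ?_
        rw [le_himp_iff, VB_mem, VB_mem, hD, hD, iSup_inf_iSup, inf_iSup_eq]
        refine iSup_le fun ⟨n, m⟩ => ?_
        have e1 : Γ ⊓ (beq a (c n) ⊓ beq a' (c m)) ≤ beq a (c n) :=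
          inf_le_right.trans inf_le_left
        have e2 : Γ ⊓ (beq a (c n) ⊓ beq a' (c m)) ≤ beq a' (c m) :=
          inf_le_right.trans inf_le_right
        rcases le_total n m with hnm | hnm
        · refine le_sup_of_le_left ?_
          refine (ext_sub_left a').of_le' (x := c n) e1 ?_
          exact (ext_sub_right (c n)).of_le' (x := c m) e2 (inf_le_left.trans (hmono n m hnm))
        · refine le_sup_of_le_right ?_
          refine (ext_sub_left a).of_le' (x := c m) e2 ?_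
          exact (ext_sub_right (c m)).of_le' (x := c n) e1 (inf_le_left.trans (hmono m n hnm)))
  refine iInf_himp_apply h3 _ le_rfl ?_
  refine le_iInf fun z => ?_
  rw [le_bihimp_iff']
  have h4 : (⨆ a, (VB B).mem a (mk (ULift.{u} ℕ) (fun n => c n.down) fun _ => ⊤) ⊓
      (VB B).mem z a) = ⨆ n, bmem z (c n) := by
    refine (iSup_mem (φ := fun y => bmem z y) (ext_mem_right z)
      (mk (ULift.{u} ℕ) (fun n => c n.down) fun _ => ⊤)).trans ?_
    refine le_antisymm (iSup_le fun n => ?_) (iSup_le fun n => ?_)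
    · exact inf_le_right.trans (le_iSup (fun n => bmem z (c n)) n.down)
    · exact le_iSup_of_le ⟨n⟩ (le_inf le_top le_rfl)
  rw [h4, VB_mem, hU]

end

/-! ### The closure functions -/

/-- The names of the elements of `XX B`. -/
def nmx (p : W.{u} → BName B) : XX B → BName B
  | .inl A => mk W.{u} p A
  | .inr ξ => p ξ

/-- A partial value made total. -/
def tot {ι : Type u} (a : ι → B) (i : ι) : B := a i ⊔ (⨆ j, a j)ᶜ

theorem iSup_tot {ι : Type u} [Nonempty ι] (a : ι → B) : ⨆ i, tot a i = ⊤ := by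
  simp only [tot]
  rw [iSup_sup_eq, iSup_const, sup_compl_eq_top]

/-- The closure functions of the second kind. -/
def aux (p : W.{u} → BName B) (s : List (XX B)) (ξ : W.{u}) : B :=
  match s with
  | [.inl A, .inr ζ] => tot (fun η => A η ⊓ beq (p η) (p ζ)) ξ
  | [.inl A] => tot A ξ
  | _ => ⊤

/-- The closure functions. -/
def phi (p : W.{u} → BName B) (e : List (XX B) → ℕ → BName B) (s : List (XX B)) (k : ℕ) :
    XX B → B
  | .inl _ => ⊥
  | .inr ξ => if k % 2 = 0 then tot (fun η => beq (e s (k / 2)) (p η)) ξ else aux p s ξ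

instance : Nonempty W.{u} := by
  have h : #W.{u} ≠ 0 := by
    rw [Cardinal.mk_ord_toType]
    exact (Cardinal.aleph_pos 1).ne'
  exact Cardinal.mk_ne_zero_iff.1 h

theorem aux_total (p : W.{u} → BName B) (s : List (XX B)) : ⨆ ξ, aux p s ξ = ⊤ := by
  unfold aux
  split
  · exact iSup_tot _
  · exact iSup_tot _
  · exact iSup_const

theorem phi_total (p : W.{u} → BName B) (e : List (XX B) → ℕ → BName B) (s : List (XX B)) (k : ℕ) :
    ⨆ x, phi p e s k x = ⊤ := by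
  refine top_le_iff.1 ?_
  have h : ∀ a : W.{u} → B, (⨆ ξ, a ξ = ⊤) → (∀ ξ, phi p e s k (.inr ξ) = a ξ) →
      ⊤ ≤ ⨆ x, phi p e s k x := by
    intro a ha h
    rw [← ha]
    exact iSup_le fun ξ => (h ξ).ge.trans (le_iSup (phi p e s k) (.inr ξ))
  by_cases hk : k % 2 = 0
  · exact h _ (iSup_tot _) fun ξ => if_pos hk
  · exact h _ (aux_total p s) fun ξ => if_neg hk

/-- Use of a closure function. -/
theorem use_tot {b : B} {N : Set (XX B)} {f : XX B → B} {a : W.{u} → B}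
    (h : b ≤ ⨆ x, ⨆ _ : x ∈ N, f x) (h0 : ∀ A, f (.inl A) = ⊥) (h1 : ∀ ξ, f (.inr ξ) = tot a ξ) :
    b ⊓ (⨆ ξ, a ξ) ≤ ⨆ ξ, ⨆ _ : Sum.inr ξ ∈ N, a ξ := by
  refine (inf_le_inf_right _ h).trans ?_
  rw [iSup_inf_eq]
  refine iSup_le fun x => ?_
  rw [iSup_inf_eq]
  refine iSup_le fun hx => ?_
  rcases x with A | ξ
  · rw [h0, bot_inf_eq]
    exact bot_le
  · rw [h1, tot, inf_sup_right, compl_inf_self, sup_bot_eq]
    exact inf_le_left.trans (le_iSup_of_le ξ (le_iSup_of_le hx le_rfl))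

/-! ### Generic conditions -/

theorem le_iSup_cases {ι : Type*} {Δ c : B} {a : ι → B} (h : Δ ≤ ⨆ i, a i)
    (h' : ∀ i, Δ ⊓ a i ≤ c) : Δ ≤ c := by
  refine (le_inf le_rfl h).trans ?_
  rw [inf_iSup_eq]
  exact iSup_le h'

theorem le_iSup_cases2 {ι : Type*} {q : ι → Prop} {Δ c : B} {a : ι → B}
    (h : Δ ≤ ⨆ i, ⨆ _ : q i, a i) (h' : ∀ i, q i → Δ ⊓ a i ≤ c) : Δ ≤ c := by
  refine le_iSup_cases h fun i => ?_
  rw [inf_iSup_eq]
  exact iSup_le (h' i)

theorem gen_claim {Γ b : B} {P r M : BName B} {p : W.{u} → BName B}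
    (hp : ∀ ξ, Γ ≤ bmem (p ξ) P) (hE : ∀ x, Γ ⊓ bmem x P ≤ ⨆ ξ, beq x (p ξ))
    (N : Set (XX B)) (η : W.{u}) (hM1 : ∀ A, Sum.inl A ∈ N → Γ ≤ bmem (mk W.{u} p A) M)
    (hM2 : ∀ z, Γ ⊓ b ⊓ bmem z M ⊓ bmem z P ≤ ⨆ ζ, ⨆ _ : Sum.inr ζ ∈ N, beq z (p ζ))
    (h3 : ∀ A ζ, Sum.inl A ∈ N → Sum.inr ζ ∈ N → b ⊓ (⨆ ξ, A ξ ⊓ beq (p ξ) (p ζ)) ≤
      ⨆ ξ, ⨆ _ : Sum.inr ξ ∈ N, A ξ ⊓ beq (p ξ) (p ζ)) :
    Γ ⊓ b ⊓ isGen (VB B) P r M (p η) ≤
      tgen (fun ξ η => (VB B).rel r (p ξ) (p η) ⊔ Γᶜ) N η := by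
  set le : W.{u} → W.{u} → B := fun ξ η => (VB B).rel r (p ξ) (p η) ⊔ Γᶜ with hle
  have hleΓ : ∀ {Δ : B} ξ η, Δ ≤ Γ → Δ ≤ le ξ η → Δ ≤ (VB B).rel r (p ξ) (p η) := by
    intro Δ ξ η h1 h2
    have h4 : Δ ≤ ((VB B).rel r (p ξ) (p η) ⊔ Γᶜ) ⊓ Γ := le_inf h2 h1
    rw [inf_sup_right, compl_inf_self, sup_bot_eq] at h4
    exact h4.trans inf_le_left
  refine le_iInf fun A => le_iInf fun hA => ?_
  rw [le_himp_iff]
  refine le_iInf fun t => ?_
  rw [le_himp_iff]
  set Δ : B := Γ ⊓ b ⊓ isGen (VB B) P r M (p η) ⊓ tdense le A ⊓ le t η with hΔ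
  have dΓ : Δ ≤ Γ := inf_le_left.trans (inf_le_left.trans (inf_le_left.trans inf_le_left))
  have db : Δ ≤ b := inf_le_left.trans (inf_le_left.trans (inf_le_left.trans inf_le_right))
  have dg : Δ ≤ isGen (VB B) P r M (p η) := inf_le_left.trans (inf_le_left.trans inf_le_right)
  have dd : Δ ≤ tdense le A := inf_le_left.trans inf_le_right
  have dt : Δ ≤ (VB B).rel r (p t) (p η) := hleΓ t η dΓ inf_le_right
  have hsub : Δ ≤ (VB B).sub (mk W.{u} p A) P := by
    rw [le_sub_iff]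
    intro i
    exact inf_le_left.trans (dΓ.trans (hp i))
  have hden : Δ ≤ isDense (VB B) P r (mk W.{u} p A) := by
    refine le_inf hsub (le_iInf fun x => ?_)
    rw [le_himp_iff]
    change Δ ⊓ bmem x P ≤ ⨆ q, bmem q (mk W.{u} p A) ⊓ (VB B).rel r q x
    refine le_iSup_cases ((inf_le_inf_right _ dΓ).trans (hE x)) fun ξ => ?_
    have e1 : Δ ⊓ bmem x P ⊓ beq x (p ξ) ≤ ⨆ q, A q ⊓ le q ξ :=
      (inf_le_left.trans inf_le_left).trans (dd.trans (iInf_le _ ξ))
    refine le_iSup_cases e1 fun q => le_iSup_of_le (p q) (le_inf ?_ ?_)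
    · exact (inf_le_right.trans inf_le_left).trans (vl_le_bmem (mk W.{u} p A) q)
    · refine (ext_rel_trd r (p q)).of_le' (x := p ξ) (inf_le_left.trans inf_le_right) ?_
      exact hleΓ q ξ (inf_le_left.trans (inf_le_left.trans (inf_le_left.trans dΓ)))
        (inf_le_right.trans inf_le_right)
  have h4 : Δ ≤ ⨆ s, bmem s (mk W.{u} p A) ⊓ bmem s M ⊓ comp (VB B) P r s (p t) := by
    have h5 := iInf_himp_apply dg (mk W.{u} p A) (le_rfl : Δ ≤ Δ)
      (le_inf (dΓ.trans (hM1 A hA)) hden)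
    exact iInf_himp_apply h5 (p t) le_rfl (le_inf (dΓ.trans (hp t)) dt)
  refine le_iSup_cases h4 fun s => ?_
  set Ξ : B := Δ ⊓ (bmem s (mk W.{u} p A) ⊓ bmem s M ⊓ comp (VB B) P r s (p t)) with hΞ
  have xΔ : Ξ ≤ Δ := inf_le_left
  have x1 : Ξ ≤ bmem s (mk W.{u} p A) := inf_le_right.trans (inf_le_left.trans inf_le_left)
  have x2 : Ξ ≤ bmem s M := inf_le_right.trans (inf_le_left.trans inf_le_right)
  have x3 : Ξ ≤ comp (VB B) P r s (p t) := inf_le_right.trans inf_le_right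
  have x4 : Ξ ≤ bmem s P := sub_apply hsub s xΔ x1
  refine le_iSup_cases2 ((le_inf (le_inf (le_inf (xΔ.trans dΓ) (xΔ.trans db)) x2) x4).trans
    (hM2 s)) fun ζ hζ => ?_
  have y1 : Ξ ⊓ beq s (p ζ) ≤ ⨆ ξ, A ξ ⊓ beq (p ξ) (p ζ) := by
    have y2 : Ξ ⊓ beq s (p ζ) ≤ ⨆ ξ, A ξ ⊓ beq s (p ξ) := inf_le_left.trans x1
    refine le_iSup_cases y2 fun ξ => le_iSup_of_le ξ (le_inf (inf_le_right.trans inf_le_left) ?_)
    exact (ext_eq_left (p ζ)).of_le (x := s) (inf_le_right.trans inf_le_right)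
      (inf_le_left.trans inf_le_right)
  refine le_iSup_cases2 ((le_inf (inf_le_left.trans (xΔ.trans db)) y1).trans (h3 A ζ hA hζ))
    fun ξ hξ => ?_
  set Υ : B := Ξ ⊓ beq s (p ζ) ⊓ (A ξ ⊓ beq (p ξ) (p ζ)) with hΥ
  have u1 : Υ ≤ Ξ := inf_le_left.trans inf_le_left
  have u2 : Υ ≤ beq s (p ζ) := inf_le_left.trans inf_le_right
  have u3 : Υ ≤ A ξ := inf_le_right.trans inf_le_left
  have u4 : Υ ≤ beq (p ξ) (p ζ) := inf_le_right.trans inf_le_right
  have u5 : Υ ≤ beq s (p ξ) := (ext_eq_right s).of_le' (x := p ζ) u4 u2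
  have u6 : Υ ≤ comp (VB B) P r (p ξ) (p t) :=
    (ext_comp_left P r (p t)).of_le (x := s) u5 (u1.trans x3)
  refine le_iSup_of_le ξ (le_iSup_of_le hξ (le_inf u3 ?_))
  refine le_iSup_cases (u6 : Υ ≤ ⨆ v, bmem v P ⊓ (VB B).rel r v (p ξ) ⊓ (VB B).rel r v (p t))
    fun v => ?_
  set Λ : B := Υ ⊓ (bmem v P ⊓ (VB B).rel r v (p ξ) ⊓ (VB B).rel r v (p t)) with hΛ
  have l1 : Λ ≤ bmem v P := inf_le_right.trans (inf_le_left.trans inf_le_left)
  have l2 : Λ ≤ (VB B).rel r v (p ξ) := inf_le_right.trans (inf_le_left.trans inf_le_right)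
  have l3 : Λ ≤ (VB B).rel r v (p t) := inf_le_right.trans inf_le_right
  have l0 : Λ ≤ Γ := inf_le_left.trans (u1.trans (xΔ.trans dΓ))
  refine le_iSup_cases ((le_inf l0 l1).trans (hE v)) fun w => le_iSup_of_le w (le_inf ?_ ?_)
  · exact le_sup_of_le_left ((ext_rel_snd r (p ξ)).of_le (x := v) inf_le_right
      (inf_le_left.trans l2))
  · exact le_sup_of_le_left ((ext_rel_snd r (p t)).of_le (x := v) inf_le_right
      (inf_le_left.trans l3))

/-- On the complement of `Γ` everything is generic. -/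
theorem gen_compl {Γ b : B} (le : W.{u} → W.{u} → B) (hle : ∀ x y, Γᶜ ≤ le x y)
    (N : Set (XX B)) (η : W.{u})
    (h4 : ∀ A, Sum.inl A ∈ N → b ⊓ (⨆ ξ, A ξ) ≤ ⨆ ξ, ⨆ _ : Sum.inr ξ ∈ N, A ξ) :
    b ⊓ Γᶜ ≤ tgen le N η := by
  refine le_iInf fun A => le_iInf fun hA => ?_
  rw [le_himp_iff]
  refine le_iInf fun t => ?_
  rw [le_himp_iff]
  set Δ : B := b ⊓ Γᶜ ⊓ tdense le A ⊓ le t η with hΔ
  have d1 : Δ ≤ b := inf_le_left.trans (inf_le_left.trans inf_le_left)
  have d2 : Δ ≤ Γᶜ := inf_le_left.trans (inf_le_left.trans inf_le_right)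
  have d3 : Δ ≤ ⨆ ξ, A ξ :=
    (inf_le_left.trans inf_le_right).trans ((iInf_le _ η).trans (iSup_mono fun _ => inf_le_left))
  refine le_iSup_cases2 ((le_inf d1 d3).trans (h4 A hA)) fun ξ hξ =>
    le_iSup_of_le ξ (le_iSup_of_le hξ (le_inf inf_le_right ?_))
  exact le_iSup_of_le ξ (le_inf ((inf_le_left.trans d2).trans (hle _ _))
    ((inf_le_left.trans d2).trans (hle _ _)))

/-! ### The theorem -/

theorem v_prop : VPropStatement.{u} := by
  intro B _ Γ P r p hp hE hpre hprop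
  obtain ⟨θ, H, C, Q, hH, hQ, hQH, hC, hG⟩ := exists_data hprop
  obtain ⟨hsubH, hmemH⟩ := mem_H hH hQ hQH
  have hnmx : ∀ x : XX B, Γ ≤ bmem (nmx p x) H := by
    rintro (A | ξ)
    · refine hsubH _ ?_
      rw [nmx, le_sub_iff]
      intro i
      exact inf_le_left.trans (hp i)
    · exact hmemH _ (hp ξ)
  -- the countable sets `c s`
  obtain ⟨c0, hc0, -⟩ := club_above hC nil (by
    rw [le_sub_iff]
    intro i
    exact PEmpty.elim i) (leCard_om (Y := PEmpty.{u+1}) (t := fun i => PEmpty.elim i) (by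
      intro z
      rw [mem_nil, inf_bot_eq]
      exact bot_le))
  have hstep : ∀ (c : BName B) (x : XX B), ∃ c', Γ ≤ bmem c C →
      (Γ ≤ bmem c' C ∧ Γ ≤ (VB B).sub c c' ∧ Γ ≤ bmem (nmx p x) c') := by
    intro c x
    by_cases hc : Γ ≤ bmem c C
    · obtain ⟨c', h⟩ := club_step hC c (nmx p x) hc (hnmx x)
      exact ⟨c', fun _ => h⟩
    · exact ⟨c, fun h => absurd h hc⟩
  choose F hF using hstep
  let c : List (XX B) → BName B := fun s => s.foldr (fun x c => F c x) c0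
  have hcC : ∀ s, Γ ≤ bmem (c s) C := by
    intro s
    induction s with
    | nil => exact hc0
    | cons x s ih => exact (hF (c s) x ih).1
  have hcs : ∀ x s, Γ ≤ (VB B).sub (c s) (c (x :: s)) := fun x s => (hF (c s) x (hcC s)).2.1
  have hcx : ∀ x s, Γ ≤ bmem (nmx p x) (c (x :: s)) := fun x s => (hF (c s) x (hcC s)).2.2
  have hcard : ∀ s, Γ ≤ (VB B).leCard (c s) (check om) := fun s =>
    (iInf_himp_apply (hC.trans (inf_le_left.trans inf_le_left)) (c s) le_rfl (hcC s)).trans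
      inf_le_right
  have henum : ∀ s, ∃ t : ℕ → BName B, ∀ z, Γ ⊓ bmem z (c s) ≤ ⨆ n, beq z (t n) := fun s =>
    enum_om (hcard s)
  choose e he using henum
  refine ⟨phi p e, phi_total p e, fun N hN b hb p0 hp0 => ?_⟩
  -- the enumeration of `N`
  obtain ⟨x, hx⟩ := hN.exists_eq_range ⟨_, hp0⟩
  have hxN : ∀ n, x n ∈ N := fun n => by rw [hx]; exact Set.mem_range_self n
  let s : ℕ → List (XX B) := fun n => Nat.rec [] (fun n s => x n :: s) n
  have hs1 : ∀ n, s (n + 1) = x n :: s n := fun n => rfl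
  have hsN : ∀ n, ∀ y ∈ s n, y ∈ N := by
    intro n
    induction n with
    | zero => intro y hy; exact absurd hy List.not_mem_nil
    | succ n ih =>
      intro y hy
      rw [hs1] at hy
      rcases List.mem_cons.1 hy with rfl | hy
      · exact hxN n
      · exact ih y hy
  obtain ⟨M, hMC, hM⟩ := club_union hC (fun n => c (s n)) (fun n => hcC _) (fun n => by
    rw [hs1]; exact hcs _ _)
  have hxM : ∀ y ∈ N, Γ ≤ bmem (nmx p y) M := by
    intro y hy
    rw [hx] at hy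
    obtain ⟨n, rfl⟩ := hy
    rw [hM]
    refine le_iSup_of_le (n + 1) ?_
    rw [hs1]
    exact hcx _ _
  have use1 : ∀ n j, b ⊓ (⨆ ξ, beq (e (s n) j) (p ξ)) ≤
      ⨆ ξ, ⨆ _ : Sum.inr ξ ∈ N, beq (e (s n) j) (p ξ) := by
    intro n j
    refine use_tot (hb (s n) (hsN n) (2 * j)) (fun _ => rfl) fun ξ => ?_
    have h1 : 2 * j % 2 = 0 := by omega
    have h2 : 2 * j / 2 = j := by omega
    simp only [phi, h1, h2, if_true]
  have use3 : ∀ (A : W.{u} → B) ζ, Sum.inl A ∈ N → Sum.inr ζ ∈ N →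
      b ⊓ (⨆ ξ, A ξ ⊓ beq (p ξ) (p ζ)) ≤ ⨆ ξ, ⨆ _ : Sum.inr ξ ∈ N, A ξ ⊓ beq (p ξ) (p ζ) := by
    intro A ζ hA hζ
    refine use_tot (hb [.inl A, .inr ζ] ?_ 1) (fun _ => rfl) fun ξ => rfl
    intro y hy
    rcases List.mem_cons.1 hy with rfl | hy
    · exact hA
    · rcases List.mem_cons.1 hy with rfl | hy
      · exact hζ
      · exact absurd hy List.not_mem_nil
  have use4 : ∀ (A : W.{u} → B), Sum.inl A ∈ N →
      b ⊓ (⨆ ξ, A ξ) ≤ ⨆ ξ, ⨆ _ : Sum.inr ξ ∈ N, A ξ := by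
    intro A hA
    refine use_tot (hb [.inl A] ?_ 1) (fun _ => rfl) fun ξ => rfl
    intro y hy
    rcases List.mem_cons.1 hy with rfl | hy
    · exact hA
    · exact absurd hy List.not_mem_nil
  have hM2 : ∀ z, Γ ⊓ b ⊓ bmem z M ⊓ bmem z P ≤ ⨆ ζ, ⨆ _ : Sum.inr ζ ∈ N, beq z (p ζ) := by
    intro z
    have h1 : Γ ⊓ b ⊓ bmem z M ⊓ bmem z P ≤ ⨆ n, bmem z (c (s n)) := by
      rw [← hM]
      exact inf_le_left.trans inf_le_right
    refine le_iSup_cases h1 fun n => ?_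
    have h2 : Γ ⊓ b ⊓ bmem z M ⊓ bmem z P ⊓ bmem z (c (s n)) ≤ ⨆ j, beq z (e (s n) j) :=
      (le_inf (inf_le_left.trans (inf_le_left.trans (inf_le_left.trans inf_le_left)))
        inf_le_right).trans (he (s n) z)
    refine le_iSup_cases h2 fun j => ?_
    set Δ : B := Γ ⊓ b ⊓ bmem z M ⊓ bmem z P ⊓ bmem z (c (s n)) ⊓ beq z (e (s n) j) with hΔ
    have d1 : Δ ≤ Γ ⊓ bmem z P := le_inf
      (inf_le_left.trans (inf_le_left.trans (inf_le_left.trans (inf_le_left.trans inf_le_left))))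
      (inf_le_left.trans (inf_le_left.trans inf_le_right))
    have d2 : Δ ≤ beq z (e (s n) j) := inf_le_right
    have d3 : Δ ≤ b := inf_le_left.trans (inf_le_left.trans (inf_le_left.trans (inf_le_left.trans
      inf_le_right)))
    have d4 : Δ ≤ ⨆ ξ, beq (e (s n) j) (p ξ) := by
      refine le_iSup_cases (d1.trans (hE z)) fun ξ => le_iSup_of_le ξ ?_
      exact (ext_eq_left (p ξ)).of_le (x := z) (inf_le_left.trans d2) inf_le_right
    refine le_iSup_cases2 ((le_inf d3 d4).trans (use1 n j)) fun ζ hζ =>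
      le_iSup_of_le ζ (le_iSup_of_le hζ ?_)
    exact (ext_eq_left (p ζ)).of_le' (x := e (s n) j) (inf_le_left.trans d2) inf_le_right
  -- the generic condition
  set le : W.{u} → W.{u} → B := fun ξ η => (VB B).rel r (p ξ) (p η) ⊔ Γᶜ with hle
  have h5 : Γ ≤ ⨆ q, bmem q P ⊓ (VB B).rel r q (p p0) ⊓ isGen (VB B) P r M q := by
    have h6 := iInf_himp_apply hG M (le_rfl : Γ ≤ Γ) hMC
    exact iInf_himp_apply h6 (p p0) le_rfl (le_inf (hp p0) (hxM _ hp0))
  have h7 : Γ ≤ ⨆ η, (VB B).rel r (p η) (p p0) ⊓ isGen (VB B) P r M (p η) := by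
    refine le_iSup_cases h5 fun q => ?_
    have h8 : Γ ⊓ (bmem q P ⊓ (VB B).rel r q (p p0) ⊓ isGen (VB B) P r M q) ≤
        ⨆ ξ, beq q (p ξ) :=
      (le_inf inf_le_left (inf_le_right.trans (inf_le_left.trans inf_le_left))).trans (hE q)
    refine le_iSup_cases h8 fun η => le_iSup_of_le η (le_inf ?_ ?_)
    · exact (ext_rel_snd r (p p0)).of_le (x := q) inf_le_right
        (inf_le_left.trans (inf_le_right.trans (inf_le_left.trans inf_le_right)))
    · exact (ext_isGen P r M).of_le (x := q) inf_le_right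
        (inf_le_left.trans (inf_le_right.trans inf_le_right))
  have h9 : b ⊓ Γ ≤ ⨆ q, le q p0 ⊓ tgen le N q := by
    refine le_iSup_cases (inf_le_right.trans h7) fun η => le_iSup_of_le η (le_inf ?_ ?_)
    · exact le_sup_of_le_left (inf_le_right.trans inf_le_left)
    · refine le_trans (le_inf (le_inf ?_ ?_) ?_) (gen_claim hp hE N η
        (fun A hA => hxM _ hA) hM2 use3)
      · exact inf_le_left.trans inf_le_right
      · exact inf_le_left.trans inf_le_left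
      · exact inf_le_right.trans inf_le_right
  have h10 : b ⊓ Γᶜ ≤ ⨆ q, le q p0 ⊓ tgen le N q :=
    le_iSup_of_le p0 (le_inf (inf_le_right.trans le_sup_right)
      (gen_compl le (fun _ _ => le_sup_right) N p0 use4))
  calc b = b ⊓ Γ ⊔ b ⊓ Γᶜ := by rw [← inf_sup_left, sup_compl_eq_top, inf_top_eq]
    _ ≤ _ := sup_le h9 h10

end Pool.Agent.Lib.MP_e6fef2_lc.H99
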